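import Mathlib

set_option autoImplicit false

open Finset

namespace Pool.Agent.E139C

/-- discrete intermediate values for a function with upward steps at most one -/
lemma ivt (f : ℕ → ℕ) (h0 : f 0 = 0) (h1 : ∀ k, f (k + 1) ≤ f k + 1) (x v : ℕ) (hv : v ≤ f x) :
    ∃ k, k ≤ x ∧ f k = v := by
  induction x with
  | zero => exact ⟨0, le_refl 0, by omega⟩
  | succ x ih =>
    by_cases h : v ≤ f x
    · obtain ⟨k, hk, e⟩ := ih h
      exact ⟨k, by omega, e⟩
    · exact ⟨x + 1, le_refl _, by have := h1 x; omega⟩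

/-- windows of length `H` below `J * H` that contain a point of `A` -/
noncomputable def hits (A : Set ℕ) (H J : ℕ) : Finset ℕ :=
  by classical exact (range J).filter (fun j => ∃ k, j * H < k ∧ k ≤ (j + 1) * H ∧ k ∈ A)

/-- numbers in distinct blocks of length `T` inside an interval of length `R` -/
lemma card_blocks_le (T R lo : ℕ) (hT : 1 ≤ T) (s : Finset ℕ) (p : ℕ → ℕ)
    (hp : ∀ i ∈ s, i * T < p i ∧ p i ≤ (i + 1) * T) (hlo : ∀ i ∈ s, lo ≤ p i ∧ p i ≤ lo + R) :
    s.card ≤ R / T + 2 := by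
  have hsub : s ⊆ Icc ((lo - 1) / T) ((lo + R - 1) / T) := by
    intro i hi
    obtain ⟨a, b⟩ := hp i hi
    obtain ⟨c, d⟩ := hlo i hi
    rw [mem_Icc]
    constructor
    · have h : (lo - 1) / T < i + 1 := by
        rw [Nat.div_lt_iff_lt_mul (by omega)]
        have h2 : lo ≤ (i + 1) * T := le_trans c b
        have h3 : 0 < (i + 1) * T := by positivity
        omega
      omega
    · rw [Nat.le_div_iff_mul_le (by omega)]
      omega
  refine le_trans (card_le_card hsub) ?_
  rw [Nat.card_Icc]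
  have h : (lo + R - 1) / T ≤ (lo - 1) / T + R / T + 1 := by
    rw [← Nat.lt_succ_iff, Nat.div_lt_iff_lt_mul (by omega)]
    have e1 := Nat.div_add_mod (lo - 1) T
    have e2 := Nat.div_add_mod R T
    have m1 := Nat.mod_lt (lo - 1) (show 0 < T by omega)
    have m2 := Nat.mod_lt R (show 0 < T by omega)
    have e3 : ((lo - 1) / T + R / T + 1).succ * T = T * ((lo - 1) / T) + T * (R / T) + 2 * T := by
      rw [Nat.succ_eq_add_one]; ring
    rw [e3]
    omega
  generalize (lo + R - 1) / T = u at h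
  generalize (lo - 1) / T = v at h
  generalize R / T = w at h
  omega

/-- KEY: the number of windows hit by `A` is bounded below by Cauchy-Schwarz. -/
theorem key (f : ℕ → ℕ) (h0 : f 0 = 0) (h1 : ∀ k, f (k + 1) ≤ f k + 1) (P : Set ℕ)
    (T H J x0 : ℕ) (hT : 1 ≤ T) (hH : 1 ≤ H) (hx0 : x0 ≤ J * H) (R : ℕ → ℕ)
    (hR : ∀ j < J, ∀ a b, j * H < a → a ≤ (j + 1) * H → j * H < b → b ≤ (j + 1) * H → f b ≤ f a + R j)
    (I : Finset ℕ) (p : ℕ → ℕ) (hp : ∀ i ∈ I, i * T < p i ∧ p i ≤ (i + 1) * T)
    (hpP : ∀ i ∈ I, p i ∈ P) (hpN : ∀ i ∈ I, p i ≤ f x0) :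
    I.card ^ 2 ≤ (hits {k | f k ∈ P} H J).card * ∑ j ∈ range J, (R j / T + 2) ^ 2 := by
  classical
  choose! a ha1 ha2 using fun i (hi : i ∈ I) => ivt f h0 h1 x0 (p i) (hpN i hi)
  have hapos : ∀ i ∈ I, 1 ≤ a i := by
    intro i hi
    rcases Nat.eq_zero_or_pos (a i) with h | h
    · have := ha2 i hi
      rw [h, h0] at this
      have := (hp i hi).1
      omega
    · exact h
  set w : ℕ → ℕ := fun i => (a i - 1) / H with hw
  have hwa : ∀ i ∈ I, w i * H < a i ∧ a i ≤ (w i + 1) * H := by
    intro i hi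
    have e := Nat.div_add_mod (a i - 1) H
    have m := Nat.mod_lt (a i - 1) (show 0 < H by omega)
    have h := hapos i hi
    have e1 : w i * H = H * ((a i - 1) / H) := by rw [hw]; ring
    have e2 : (w i + 1) * H = H * ((a i - 1) / H) + H := by rw [hw]; ring
    rw [e1, e2]
    omega
  have hwJ : ∀ i ∈ I, w i < J := by
    intro i hi
    have h := hapos i hi
    rw [hw]
    simp only
    rw [Nat.div_lt_iff_lt_mul (by omega)]
    have := ha1 i hi
    omega
  have hmaps : ∀ i ∈ I, w i ∈ hits {k | f k ∈ P} H J := by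
    intro i hi
    unfold hits
    rw [mem_filter, mem_range]
    refine ⟨hwJ i hi, a i, (hwa i hi).1, (hwa i hi).2, ?_⟩
    show f (a i) ∈ P
    rw [ha2 i hi]
    exact hpP i hi
  have hsum : I.card = ∑ j ∈ hits {k | f k ∈ P} H J, (I.filter (fun i => w i = j)).card :=
    card_eq_sum_card_fiberwise hmaps
  have hcell : ∀ j ∈ hits {k | f k ∈ P} H J, (I.filter (fun i => w i = j)).card ≤ R j / T + 2 := by
    intro j hj
    have hjJ : j < J := by
      unfold hits at hj
      exact mem_range.1 (mem_filter.1 hj).1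
    rcases (I.filter (fun i => w i = j)).eq_empty_or_nonempty with he | he
    · rw [he]; simp
    · obtain ⟨i0, hi0, hmin⟩ := exists_min_image (I.filter (fun i => w i = j)) p he
      refine card_blocks_le T (R j) (p i0) hT _ p (fun i hi => hp i (mem_filter.1 hi).1) ?_
      intro i hi
      refine ⟨hmin i hi, ?_⟩
      have q1 := (mem_filter.1 hi)
      have q0 := (mem_filter.1 hi0)
      have u1 := hwa i q1.1
      have u0 := hwa i0 q0.1
      rw [q1.2] at u1
      rw [q0.2] at u0
      have := hR j hjJ (a i0) (a i) u0.1 u0.2 u1.1 u1.2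
      rw [ha2 i q1.1, ha2 i0 q0.1] at this
      exact this
  have hsub : hits {k | f k ∈ P} H J ⊆ range J := by
    unfold hits; exact filter_subset _ _
  calc I.card ^ 2 = (∑ j ∈ hits {k | f k ∈ P} H J, (I.filter (fun i => w i = j)).card) ^ 2 := by rw [← hsum]
    _ ≤ (hits {k | f k ∈ P} H J).card * ∑ j ∈ hits {k | f k ∈ P} H J, (I.filter (fun i => w i = j)).card ^ 2 :=
        sq_sum_le_card_mul_sum_sq
    _ ≤ (hits {k | f k ∈ P} H J).card * ∑ j ∈ hits {k | f k ∈ P} H J, (R j / T + 2) ^ 2 := by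
        apply Nat.mul_le_mul_left
        apply sum_le_sum
        intro j hj
        exact Nat.pow_le_pow_left (hcell j hj) 2
    _ ≤ (hits {k | f k ∈ P} H J).card * ∑ j ∈ range J, (R j / T + 2) ^ 2 := by
        apply Nat.mul_le_mul_left
        exact sum_le_sum_of_subset hsub

/-- sums: every second hit window gives a translate of the small set -/
theorem sums (A B : Set ℕ) (H J X : ℕ) (hX : (J + 1) * H ≤ X) (B' : Finset ℕ)
    (hB : ∀ m ∈ B', 1 ≤ m ∧ m ≤ H ∧ m ∈ B) (Z : Finset ℕ)
    (hZ : ∀ n, 1 ≤ n → n ≤ X → (∃ k m, 1 ≤ k ∧ 1 ≤ m ∧ k + m = n ∧ k ∈ A ∧ m ∈ B) → n ∈ Z) :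
    (hits A H J).card * B'.card ≤ 2 * Z.card := by
  classical
  have hpar : ∀ e : ℕ, ((hits A H J).filter (fun j => j % 2 = e)).card * B'.card ≤ Z.card := by
    intro e
    have hch : ∀ j ∈ hits A H J, ∃ k, j * H < k ∧ k ≤ (j + 1) * H ∧ k ∈ A := by
      intro j hj
      unfold hits at hj
      exact (mem_filter.1 hj).2
    choose! k hk1 hk2 hkA using hch
    rw [← card_product]
    refine card_le_card_of_injOn (fun q => k q.1 + q.2) ?_ ?_
    · intro q hq
      rw [mem_coe, mem_product, mem_filter] at hq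
      obtain ⟨⟨hq1, -⟩, hq2⟩ := hq
      obtain ⟨b1, b2, b3⟩ := hB _ hq2
      have c1 := hk1 _ hq1
      have c2 := hk2 _ hq1
      have hjJ : q.1 < J := by
        unfold hits at hq1
        exact mem_range.1 (mem_filter.1 hq1).1
      have h3 : (q.1 + 1) * H ≤ J * H := Nat.mul_le_mul_right _ hjJ
      have h4 : (J + 1) * H = J * H + H := by ring
      apply hZ
      · show 1 ≤ k q.1 + q.2
        omega
      · show k q.1 + q.2 ≤ X
        omega
      · exact ⟨k q.1, q.2, by omega, b1, rfl, hkA _ hq1, b3⟩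
    · intro q hq r hr heq
      rw [mem_coe, mem_product, mem_filter] at hq hr
      obtain ⟨⟨hq1, hq3⟩, hq2⟩ := hq
      obtain ⟨⟨hr1, hr3⟩, hr2⟩ := hr
      obtain ⟨b1, b2, -⟩ := hB _ hq2
      obtain ⟨d1, d2, -⟩ := hB _ hr2
      have c1 := hk1 _ hq1
      have c2 := hk2 _ hq1
      have e1 := hk1 _ hr1
      have e2 := hk2 _ hr1
      have heq' : k q.1 + q.2 = k r.1 + r.2 := heq
      have key : ∀ i j : ℕ, i % 2 = e → j % 2 = e → i < j → ∀ a b u v : ℕ, a ≤ (i + 1) * H → u ≤ H →
          j * H < b → 1 ≤ v → a + u ≠ b + v := by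
        intro i j hi hj hij a b u v h1 h2 h3 h4 h5
        have h6 : i + 2 ≤ j := by omega
        have h7 : (i + 2) * H ≤ j * H := Nat.mul_le_mul_right _ h6
        have h8 : (i + 2) * H = (i + 1) * H + H := by ring
        omega
      have hj : q.1 = r.1 := by
        rcases lt_trichotomy q.1 r.1 with h | h | h
        · exact absurd heq' (key _ _ hq3 hr3 h _ _ _ _ c2 b2 e1 d1)
        · exact h
        · exact absurd heq'.symm (key _ _ hr3 hq3 h _ _ _ _ e2 d2 c1 b1)
      have hm : q.2 = r.2 := by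
        rw [hj] at heq'
        omega
      exact Prod.ext hj hm
  have hsplit : (hits A H J).card = ((hits A H J).filter (fun j => j % 2 = 0)).card +
      ((hits A H J).filter (fun j => j % 2 = 1)).card := by
    rw [← card_union_of_disjoint]
    · congr 1
      ext j
      simp only [mem_union, mem_filter]
      constructor
      · intro h
        rcases Nat.mod_two_eq_zero_or_one j with h2 | h2
        · exact Or.inl ⟨h, h2⟩
        · exact Or.inr ⟨h, h2⟩
      · rintro (h | h) <;> exact h.1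
    · rw [disjoint_filter]
      intro j _ h1 h2
      omega
  rw [hsplit, add_mul]
  have := hpar 0
  have := hpar 1
  omega

end Pool.Agent.E139C
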