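import Mathlib
import Pool.Agent.HLT.APMoment

set_option autoImplicit false

open Finset Filter

namespace Pool.Agent.E139C

open Pool.Agent.HL26 Pool.Agent.HLT

/-- the number of primes in `(a, b]` -/
def pc (a b : ℕ) : ℕ := ((Ioc a b).filter Nat.Prime).card

/-- ordered pairs of different `e <= H` with `m + e` prime, against the tuple counts -/
lemma pairs_le (Z H : ℕ) :
    ∑ m ∈ Icc 1 Z, ((((range (H + 1)).filter (fun e => Nat.Prime (m + e))).offDiag).card : ℝ) ≤
      ∑ e ∈ (box 2 H).filter (fun e => Function.Injective e),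
        (tupleCount (Z : ℝ) (Finset.univ.image e) : ℝ) := by
  classical
  have h1 : ∀ e : Fin 2 → ℕ, (tupleCount (Z : ℝ) (Finset.univ.image e) : ℝ) =
      ∑ m ∈ Icc 1 Z, (if (∀ c ∈ Finset.univ.image e, Nat.Prime (m + c)) then (1:ℝ) else 0) := by
    intro e
    unfold tupleCount
    rw [Nat.floor_natCast, Finset.sum_boole]
  simp only [h1]
  rw [Finset.sum_comm]
  apply Finset.sum_le_sum
  intro m hm
  rw [Finset.sum_boole]
  norm_cast
  refine card_le_card_of_injOn (fun q => ![q.1, q.2]) ?_ ?_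
  · intro q hq
    rw [mem_coe, mem_offDiag, mem_filter, mem_filter, mem_range, mem_range] at hq
    obtain ⟨⟨a1, a2⟩, ⟨b1, b2⟩, hne⟩ := hq
    rw [mem_coe, mem_filter, mem_filter]
    refine ⟨⟨?_, ?_⟩, ?_⟩
    · unfold Pool.Agent.HLT.box
      rw [Fintype.mem_piFinset]
      intro i
      fin_cases i
      · simpa using a1
      · simpa using b1
    · intro i j hij
      fin_cases i <;> fin_cases j
      · rfl
      · exact absurd hij hne
      · exact absurd hij.symm hne
      · rfl
    · intro c hc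
      rw [mem_image] at hc
      obtain ⟨i, -, rfl⟩ := hc
      fin_cases i
      · simpa using a2
      · simpa using b2
  · intro q _ r _ h
    have h0 := congrFun h 0
    have h1 := congrFun h 1
    simp at h0 h1
    exact Prod.ext h0 h1

/-- a block of length `L` lies in `[m, m + 2L]` for `L` values of `m` -/
lemma block_le (L i m : ℕ) (hm1 : i * L < m) (hm2 : m ≤ (i + 1) * L) :
    (pc ((i + 1) * L) ((i + 2) * L)) * (pc ((i + 1) * L) ((i + 2) * L)) - pc ((i + 1) * L) ((i + 2) * L) ≤
      (((range (2 * L + 1)).filter (fun e => Nat.Prime (m + e))).offDiag).card := by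
  classical
  have h : pc ((i + 1) * L) ((i + 2) * L) ≤ ((range (2 * L + 1)).filter (fun e => Nat.Prime (m + e))).card := by
    unfold pc
    refine card_le_card_of_injOn (fun q => q - m) ?_ ?_
    · intro q hq
      rw [mem_coe, mem_filter, mem_Ioc] at hq
      obtain ⟨⟨q1, q2⟩, q3⟩ := hq
      rw [mem_coe, mem_filter, mem_range]
      have e1 : (i + 2) * L = i * L + 2 * L := by ring
      have e2 : (i + 1) * L = i * L + L := by ring
      refine ⟨?_, ?_⟩
      · show q - m < 2 * L + 1
        omega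
      · show Nat.Prime (m + (q - m))
        have : m + (q - m) = q := by omega
        rw [this]
        exact q3
    · intro q hq r hr h
      rw [mem_coe, mem_filter, mem_Ioc] at hq hr
      have h' : q - m = r - m := h
      omega
  rw [offDiag_card]
  generalize pc ((i + 1) * L) ((i + 2) * L) = a at h ⊢
  generalize ((range (2 * L + 1)).filter (fun e => Nat.Prime (m + e))).card = b at h ⊢
  rcases Nat.eq_zero_or_pos a with ha | ha
  · subst ha; simp
  · have e1 : a * a - a = a * (a - 1) := by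
      rw [Nat.mul_sub, mul_one]
    have e2 : b * b - b = b * (b - 1) := by
      rw [Nat.mul_sub, mul_one]
    rw [e1, e2]
    exact Nat.mul_le_mul h (by omega)

/-- all blocks together -/
lemma blocks_le (Z L M : ℕ) (hM : (M + 1) * L ≤ Z) :
    (L : ℝ) * ∑ i ∈ range M, (((pc ((i + 1) * L) ((i + 2) * L)) * (pc ((i + 1) * L) ((i + 2) * L)) -
        pc ((i + 1) * L) ((i + 2) * L) : ℕ) : ℝ) ≤
      ∑ m ∈ Icc 1 Z, ((((range (2 * L + 1)).filter (fun e => Nat.Prime (m + e))).offDiag).card : ℝ) := by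
  classical
  have h1 : ∑ i ∈ range M, ∑ m ∈ Ioc (i * L) ((i + 1) * L),
      ((((range (2 * L + 1)).filter (fun e => Nat.Prime (m + e))).offDiag).card : ℝ) ≤
      ∑ m ∈ Icc 1 Z, ((((range (2 * L + 1)).filter (fun e => Nat.Prime (m + e))).offDiag).card : ℝ) := by
    rw [← sum_biUnion]
    · apply sum_le_sum_of_subset_of_nonneg
      · intro m hm
        rw [mem_biUnion] at hm
        obtain ⟨i, hi, hmi⟩ := hm
        rw [mem_range] at hi
        rw [mem_Ioc] at hmi
        rw [mem_Icc]
        have h3 : (i + 1) * L ≤ (M + 1) * L := Nat.mul_le_mul_right _ (by omega)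
        omega
      · intro m _ _
        positivity
    · intro i _ j _ hij
      have : ∀ i j : ℕ, i < j → Disjoint (Ioc (i * L) ((i + 1) * L)) (Ioc (j * L) ((j + 1) * L)) := by
        intro i j h
        rw [disjoint_left]
        intro m h1 h2
        rw [mem_Ioc] at h1 h2
        have h3 : (i + 1) * L ≤ j * L := Nat.mul_le_mul_right _ h
        omega
      rcases lt_or_gt_of_ne hij with h | h
      · exact this i j h
      · exact (this j i h).symm
  refine le_trans ?_ h1
  rw [mul_sum]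
  apply sum_le_sum
  intro i _
  have h2 : ∀ m ∈ Ioc (i * L) ((i + 1) * L),
      (((pc ((i + 1) * L) ((i + 2) * L)) * (pc ((i + 1) * L) ((i + 2) * L)) -
        pc ((i + 1) * L) ((i + 2) * L) : ℕ) : ℝ) ≤
      ((((range (2 * L + 1)).filter (fun e => Nat.Prime (m + e))).offDiag).card : ℝ) := by
    intro m hm
    rw [mem_Ioc] at hm
    exact_mod_cast block_le L i m hm.1 hm.2
  have h3 := Finset.card_nsmul_le_sum _ _ _ h2
  rw [Nat.card_Ioc, nsmul_eq_mul] at h3
  have h4 : (i + 1) * L - i * L = L := by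
    have : (i + 1) * L = i * L + L := by ring
    omega
  rw [h4] at h3
  exact h3

/-- second moment of the primes in blocks, off the diagonal -/
theorem offdiag : ∃ C : ℝ, 0 < C ∧ ∃ Z0 : ℕ, ∀ Z : ℕ, Z0 ≤ Z → ∀ L M : ℕ, 1 ≤ L → (M + 1) * L ≤ Z →
    ∑ i ∈ range M, (((pc ((i + 1) * L) ((i + 2) * L)) * (pc ((i + 1) * L) ((i + 2) * L)) -
        pc ((i + 1) * L) ((i + 2) * L) : ℕ) : ℝ) ≤ C * (Z * L / (Real.log Z) ^ 2) := by
  obtain ⟨C, hC, X, hX⟩ := cx_moments 1 le_rfl
  refine ⟨9 * C, by positivity, ⌈max X 3⌉₊, ?_⟩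
  intro Z hZ L M hL hM
  have hZr : max X 3 ≤ (Z:ℝ) := le_trans (Nat.le_ceil _) (by exact_mod_cast hZ)
  have hZX : X ≤ Z := le_trans (le_max_left _ _) hZr
  have hZ3 : (3:ℝ) ≤ Z := le_trans (le_max_right _ _) hZr
  have hlog : 0 < Real.log Z := Real.log_pos (by linarith)
  have h1 := (hX Z hZX (2 * L) (by omega)).1
  have h2 := blocks_le Z L M hM
  have h3 := pairs_le Z (2 * L)
  have h4 : ∑ e ∈ (box (1 + 1) (2 * L)).filter (fun e => Function.Injective e), cx 1 Z e =
      (Real.log Z) ^ 2 / Z * ∑ e ∈ (box 2 (2 * L)).filter (fun e => Function.Injective e),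
        (tupleCount (Z : ℝ) (Finset.univ.image e) : ℝ) := by
    rw [mul_sum]
    rfl
  rw [h4] at h1
  have hLr : (1:ℝ) ≤ L := by exact_mod_cast hL
  have h5 : C * (((2 * L : ℕ) : ℝ) + 1) ^ (1 + 1) ≤ C * (9 * (L:ℝ) ^ 2) := by
    apply mul_le_mul_of_nonneg_left _ hC.le
    push_cast
    nlinarith
  have hZ0 : (0:ℝ) < Z := by linarith
  have h6 : ∑ e ∈ (box 2 (2 * L)).filter (fun e => Function.Injective e),
        (tupleCount (Z : ℝ) (Finset.univ.image e) : ℝ) ≤ (C * (9 * (L:ℝ) ^ 2)) * (Z / (Real.log Z) ^ 2) := by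
    have h7 := le_trans h1 h5
    have h8 : 0 < Z / (Real.log Z) ^ 2 := by positivity
    have h9 := mul_le_mul_of_nonneg_right h7 h8.le
    have h10 : (Real.log Z) ^ 2 / Z * ∑ e ∈ (box 2 (2 * L)).filter (fun e => Function.Injective e),
        (tupleCount (Z : ℝ) (Finset.univ.image e) : ℝ) * (Z / (Real.log Z) ^ 2) =
        ∑ e ∈ (box 2 (2 * L)).filter (fun e => Function.Injective e),
        (tupleCount (Z : ℝ) (Finset.univ.image e) : ℝ) := by
      rw [← sum_mul]
      field_simp
    have h11 : (Real.log Z) ^ 2 / Z * (∑ e ∈ (box 2 (2 * L)).filter (fun e => Function.Injective e),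
        (tupleCount (Z : ℝ) (Finset.univ.image e) : ℝ)) * (Z / (Real.log Z) ^ 2) =
        ∑ e ∈ (box 2 (2 * L)).filter (fun e => Function.Injective e),
        (tupleCount (Z : ℝ) (Finset.univ.image e) : ℝ) := by
      field_simp
    rw [h11] at h9
    exact h9
  have h12 : (L : ℝ) * ∑ i ∈ range M, (((pc ((i + 1) * L) ((i + 2) * L)) * (pc ((i + 1) * L) ((i + 2) * L)) -
        pc ((i + 1) * L) ((i + 2) * L) : ℕ) : ℝ) ≤ (L:ℝ) * (9 * C * (Z * L / (Real.log Z) ^ 2)) := by
    refine le_trans (le_trans (le_trans h2 h3) h6) (le_of_eq ?_)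
    ring
  exact le_of_mul_le_mul_left h12 (by linarith)

end Pool.Agent.E139C
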