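import Mathlib
import Pool.Agent.E139C.Mom

set_option autoImplicit false

open Finset Filter

namespace Pool.Agent.E139C

lemma pc_eq (a b : ℕ) (h : a ≤ b) : pc a b + Nat.primeCounting a = Nat.primeCounting b := by
  classical
  have h1 : ∀ n, Nat.primeCounting n = ((Icc 1 n).filter Nat.Prime).card := by
    intro n
    rw [Nat.primeCounting, Nat.primeCounting', Nat.count_eq_card_filter_range]
    congr 1
    ext p
    simp only [mem_filter, mem_range, mem_Icc]
    constructor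
    · rintro ⟨h1, h2⟩
      exact ⟨⟨h2.one_lt.le, by omega⟩, h2⟩
    · rintro ⟨h1, h2⟩
      exact ⟨by omega, h2⟩
  rw [h1, h1]
  unfold pc
  rw [← card_union_of_disjoint]
  · congr 1
    ext p
    simp only [mem_union, mem_filter, mem_Ioc, mem_Icc]
    constructor
    · rintro (⟨h1, h2⟩ | ⟨h1, h2⟩)
      · exact ⟨by omega, h2⟩
      · exact ⟨by omega, h2⟩
    · rintro ⟨h1, h2⟩
      by_cases h3 : p ≤ a
      · exact Or.inr ⟨by omega, h2⟩
      · exact Or.inl ⟨by omega, h2⟩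
  · rw [disjoint_left]
    intro p h1 h2
    simp only [mem_filter, mem_Ioc, mem_Icc] at h1 h2
    omega

lemma pc_sum (L M : ℕ) : ∑ i ∈ range M, pc ((i + 1) * L) ((i + 2) * L) = pc L ((M + 1) * L) := by
  induction M with
  | zero =>
    have := pc_eq L ((0 + 1) * L) (by simp)
    simp only [zero_add, one_mul, range_zero, sum_empty] at this ⊢
    omega
  | succ M ih =>
    rw [sum_range_succ, ih]
    have e1 : (M + 1) * L ≤ (M + 2) * L := Nat.mul_le_mul_right _ (by omega)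
    have e2 : L ≤ (M + 1) * L := by nlinarith
    have e3 : L ≤ (M + 2) * L := by nlinarith
    have h1 := pc_eq L ((M + 1) * L) e2
    have h2 := pc_eq ((M + 1) * L) ((M + 2) * L) e1
    have h3 := pc_eq L ((M + 2) * L) e3
    have e4 : (M + 1 + 1) * L = (M + 2) * L := by ring
    rw [e4]
    omega

lemma pc_le (a b : ℕ) : pc a b ≤ b - a := by
  unfold pc
  refine le_trans (card_filter_le _ _) ?_
  rw [Nat.card_Ioc]

/-- (P): second moment of the primes in blocks -/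
theorem second (hup : ∃ C : ℝ, 0 < C ∧ ∃ N0 : ℕ, ∀ N : ℕ, N0 ≤ N → (Nat.primeCounting N : ℝ) ≤ C * (N / Real.log N)) :
    ∃ C : ℝ, 0 < C ∧ ∃ Z0 : ℕ, ∀ Z : ℕ, Z0 ≤ Z → ∀ L M : ℕ, Real.log Z ≤ L → (M + 1) * L ≤ Z →
    ∑ i ∈ range M, ((pc ((i + 1) * L) ((i + 2) * L) : ℕ) : ℝ) ^ 2 ≤ C * (Z * L / (Real.log Z) ^ 2) := by
  obtain ⟨C1, hC1, Z1, h1⟩ := offdiag
  obtain ⟨C2, hC2, Z2, h2⟩ := hup
  refine ⟨C1 + C2, by positivity, max (max Z1 Z2) 3, ?_⟩
  intro Z hZ L M hL hM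
  have hZ1 : Z1 ≤ Z := le_trans (le_trans (le_max_left _ _) (le_max_left _ _)) hZ
  have hZ2 : Z2 ≤ Z := le_trans (le_trans (le_max_right _ _) (le_max_left _ _)) hZ
  have hZ3 : 3 ≤ Z := le_trans (le_max_right _ _) hZ
  have hZ3r : (3:ℝ) ≤ Z := by exact_mod_cast hZ3
  have hlog : 0 < Real.log Z := Real.log_pos (by linarith)
  have hL1 : 1 ≤ L := by
    have : (0:ℝ) < L := lt_of_lt_of_le hlog hL
    exact_mod_cast this
  have a1 := h1 Z hZ1 L M hL1 hM
  have a2 := h2 Z hZ2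
  have a3 : ∀ i ∈ range M, ((pc ((i + 1) * L) ((i + 2) * L) : ℕ) : ℝ) ^ 2 =
      (((pc ((i + 1) * L) ((i + 2) * L)) * (pc ((i + 1) * L) ((i + 2) * L)) -
        pc ((i + 1) * L) ((i + 2) * L) : ℕ) : ℝ) + (pc ((i + 1) * L) ((i + 2) * L) : ℝ) := by
    intro i _
    have : pc ((i + 1) * L) ((i + 2) * L) ≤ pc ((i + 1) * L) ((i + 2) * L) * pc ((i + 1) * L) ((i + 2) * L) :=
      Nat.le_mul_self _
    rw [Nat.cast_sub this]
    push_cast
    ring
  rw [sum_congr rfl a3, sum_add_distrib]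
  have a4 : ∑ i ∈ range M, (pc ((i + 1) * L) ((i + 2) * L) : ℝ) ≤ (Nat.primeCounting Z : ℝ) := by
    have := pc_sum L M
    have e1 : L ≤ (M + 1) * L := by nlinarith
    have h3 := pc_eq L ((M + 1) * L) e1
    have h4 := Nat.monotone_primeCounting hM
    have h5 : ∑ i ∈ range M, pc ((i + 1) * L) ((i + 2) * L) ≤ Nat.primeCounting Z := by omega
    exact_mod_cast h5
  have a5 : C2 * (Z / Real.log Z) ≤ C2 * (Z * L / (Real.log Z) ^ 2) := by
    apply mul_le_mul_of_nonneg_left _ hC2.le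
    rw [div_le_div_iff₀ hlog (by positivity)]
    have : (Z:ℝ) * (Real.log Z) * Real.log Z ≤ Z * L * Real.log Z := by
      apply mul_le_mul_of_nonneg_right _ hlog.le
      apply mul_le_mul_of_nonneg_left hL (by linarith)
    nlinarith
  calc _ ≤ C1 * (Z * L / (Real.log Z) ^ 2) + C2 * (Z * L / (Real.log Z) ^ 2) := by
        exact add_le_add a1 (le_trans (le_trans a4 a2) a5)
    _ = _ := by ring

end Pool.Agent.E139C
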