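import Mathlib
import Pool.Agent.E139C.Second

set_option autoImplicit false

open Finset Filter

namespace Pool.Agent.E139C

/-- upper bound of Chebyshev -/
def Up : Prop := ∃ C : ℝ, 0 < C ∧ ∃ N0 : ℕ, ∀ N : ℕ, N0 ≤ N → (Nat.primeCounting N : ℝ) ≤ C * (N / Real.log N)

/-- lower bound of Chebyshev -/
def Low : Prop := ∃ c : ℝ, 0 < c ∧ ∃ N0 : ℕ, ∀ N : ℕ, N0 ≤ N → c * (N / Real.log N) ≤ (Nat.primeCounting N : ℝ)

/-- many blocks of length `T` (logarithmic) contain a prime -/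
theorem level (hup : Up) (hlow : Low) : ∃ c : ℝ, 0 < c ∧ ∃ N0 : ℕ, ∀ N : ℕ, N0 ≤ N → ∀ ℓ : ℝ,
    Real.log N ≤ ℓ → ℓ ≤ 2 * Real.log N → ∀ T : ℕ, ℓ ≤ T → (T : ℝ) ≤ 2 * ℓ →
    c * (N / ℓ) ≤ (((range (N / T - 1)).filter (fun i => 0 < pc ((i + 1) * T) ((i + 2) * T))).card : ℝ) := by
  classical
  obtain ⟨C, hC, Z0, hsec⟩ := second hup
  obtain ⟨c, hc, N1, hlo⟩ := hlow
  have ev1 : ∀ᶠ x : ℝ in atTop, (Real.log x) ^ 2 ≤ min (c / 16) 1 * x / 16 := by
    have h := Real.isLittleO_pow_log_id_atTop (n := 2)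
    have hm : 0 < min (c / 16) 1 / 16 := by positivity
    filter_upwards [h.bound hm, eventually_ge_atTop 1] with x hx hx1
    rw [Real.norm_of_nonneg (by positivity), id, Real.norm_of_nonneg (by linarith)] at hx
    linarith
  obtain ⟨X1, hX1⟩ := Filter.eventually_atTop.1 ev1
  refine ⟨c ^ 2 / (32 * C), by positivity, max (max Z0 N1) (max ⌈X1⌉₊ 16), ?_⟩
  intro N hN ℓ hℓ1 hℓ2 T hT1 hT2
  have hNZ : Z0 ≤ N := le_trans (le_trans (le_max_left _ _) (le_max_left _ _)) hN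
  have hNN : N1 ≤ N := le_trans (le_trans (le_max_right _ _) (le_max_left _ _)) hN
  have hN16 : 16 ≤ N := le_trans (le_trans (le_max_right _ _) (le_max_right _ _)) hN
  have hNX : X1 ≤ (N:ℝ) :=
    le_trans (Nat.le_ceil _) (by exact_mod_cast le_trans (le_trans (le_max_left _ _) (le_max_right _ _)) hN)
  have hN16r : (16:ℝ) ≤ N := by exact_mod_cast hN16
  have hl := hX1 N hNX
  have hlog1 : 1 ≤ Real.log N := by
    rw [Real.le_log_iff_exp_le (by linarith)]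
    have := Real.exp_one_lt_d9
    linarith
  set L : ℝ := Real.log N with hL
  have hℓ0 : 1 ≤ ℓ := le_trans hlog1 hℓ1
  have hT0 : 1 ≤ T := by
    have : (1:ℝ) ≤ T := le_trans hℓ0 hT1
    exact_mod_cast this
  have hTr : (1:ℝ) ≤ T := by exact_mod_cast hT0
  have hmin1 : min (c / 16) 1 ≤ c / 16 := min_le_left _ _
  have hmin2 : min (c / 16) 1 ≤ 1 := min_le_right _ _
  -- T is small against N
  have hTN : (T:ℝ) ≤ N / 4 := by nlinarith
  have hTN' : 1 ≤ N / T := by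
    rw [Nat.le_div_iff_mul_le (by omega), one_mul]
    have : (T:ℝ) ≤ N := by linarith
    exact_mod_cast this
  set M : ℕ := N / T - 1 with hM
  have hM1 : M + 1 = N / T := by omega
  have hMN : (M + 1) * T ≤ N := by rw [hM1]; exact Nat.div_mul_le_self N T
  have hMN2 : N < (M + 1) * T + T := by
    rw [hM1]
    have e := Nat.div_add_mod N T
    have m := Nat.mod_lt N (show 0 < T by omega)
    have e1 : N / T * T = T * (N / T) := by ring
    omega
  -- first moment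
  have hsum := pc_sum T M
  have hpc := pc_eq T ((M + 1) * T) (by nlinarith)
  have hpc2 := pc_eq ((M + 1) * T) N hMN
  have hpc3 := pc_le ((M + 1) * T) N
  have hpiT : Nat.primeCounting T ≤ T := by
    have h1 := pc_eq 0 T (by omega)
    have h2 := pc_le 0 T
    simp at h1
    omega
  have hfirst : Nat.primeCounting N ≤ (∑ i ∈ range M, pc ((i + 1) * T) ((i + 2) * T)) + 2 * T := by omega
  have hfirstr : (Nat.primeCounting N : ℝ) ≤ (∑ i ∈ range M, (pc ((i + 1) * T) ((i + 2) * T) : ℝ)) + 2 * T := by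
    exact_mod_cast hfirst
  have hlowN := hlo N hNN
  have hN0 : (0:ℝ) < N := by linarith
  have hNl : (N:ℝ) / ℓ ≤ N / L := div_le_div_of_nonneg_left hN0.le (by linarith) hℓ1
  have hsmall : 2 * (T:ℝ) ≤ c / 2 * (N / ℓ) := by
    rw [mul_div_assoc', le_div_iff₀ (by linarith)]
    nlinarith
  have hS : c / 2 * (N / ℓ) ≤ ∑ i ∈ range M, (pc ((i + 1) * T) ((i + 2) * T) : ℝ) := by
    have := mul_le_mul_of_nonneg_left hNl hc.le
    linarith
  -- second moment
  have hsec' := hsec N hNZ T M (le_trans hℓ1 hT1) hMN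
  -- Cauchy-Schwarz
  set I := (range M).filter (fun i => 0 < pc ((i + 1) * T) ((i + 2) * T)) with hI
  have hSI : ∑ i ∈ range M, (pc ((i + 1) * T) ((i + 2) * T) : ℝ) = ∑ i ∈ I, (pc ((i + 1) * T) ((i + 2) * T) : ℝ) := by
    symm
    apply sum_subset (filter_subset _ _)
    intro i hi hni
    rw [mem_filter] at hni
    have : ¬ 0 < pc ((i + 1) * T) ((i + 2) * T) := fun h => hni ⟨hi, h⟩
    have : pc ((i + 1) * T) ((i + 2) * T) = 0 := by omega
    rw [this]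
    simp
  have hcs : (∑ i ∈ I, (pc ((i + 1) * T) ((i + 2) * T) : ℝ)) ^ 2 ≤
      (I.card : ℝ) * ∑ i ∈ I, (pc ((i + 1) * T) ((i + 2) * T) : ℝ) ^ 2 := sq_sum_le_card_mul_sum_sq
  have hSI2 : ∑ i ∈ I, (pc ((i + 1) * T) ((i + 2) * T) : ℝ) ^ 2 ≤
      ∑ i ∈ range M, (pc ((i + 1) * T) ((i + 2) * T) : ℝ) ^ 2 := by
    apply sum_le_sum_of_subset_of_nonneg (filter_subset _ _)
    intro i _ _
    positivity
  rw [← hSI] at hcs
  have hIc : (0:ℝ) ≤ I.card := by positivity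
  have h5 : (c / 2 * (N / ℓ)) ^ 2 ≤ (I.card : ℝ) * (C * (N * T / L ^ 2)) := by
    calc (c / 2 * (N / ℓ)) ^ 2 ≤ (∑ i ∈ range M, (pc ((i + 1) * T) ((i + 2) * T) : ℝ)) ^ 2 := by
          apply pow_le_pow_left₀ (by positivity) hS
      _ ≤ _ := hcs
      _ ≤ (I.card : ℝ) * (C * (N * T / L ^ 2)) := by
          apply mul_le_mul_of_nonneg_left (le_trans hSI2 hsec') hIc
  have h6 : C * (N * T / L ^ 2) ≤ C * (8 * N / ℓ) := by
    apply mul_le_mul_of_nonneg_left _ hC.le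
    rw [div_le_div_iff₀ (by positivity) (by linarith)]
    have h7 : (T:ℝ) * ℓ ≤ 8 * L ^ 2 := by nlinarith
    nlinarith
  have h8 : (c / 2 * (N / ℓ)) ^ 2 ≤ (I.card : ℝ) * (C * (8 * N / ℓ)) :=
    le_trans h5 (mul_le_mul_of_nonneg_left h6 hIc)
  have h9 : 0 < C * (8 * N / ℓ) := by positivity
  have h10 : (c / 2 * (N / ℓ)) ^ 2 / (C * (8 * N / ℓ)) ≤ (I.card : ℝ) := by
    rw [div_le_iff₀ h9]
    exact h8
  refine le_trans (le_of_eq ?_) h10
  field_simp
  ring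

end Pool.Agent.E139C
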