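import Mathlib
import Pool.Agent.E139C.Level

set_option autoImplicit false

open Finset Filter

namespace Pool.Agent.E139C

/-- primes in the two windows attached to `(jH, (j+1)H]` -/
def rr (H j : ℕ) : ℕ := pc (j * H) ((j + 1) * H) + pc (j * (2 * H)) ((j + 1) * (2 * H))

lemma sum_first (H M : ℕ) (K : ℝ) (h : ∑ i ∈ range M, ((pc ((i + 1) * H) ((i + 2) * H) : ℕ) : ℝ) ^ 2 ≤ K) :
    ∑ j ∈ range (M + 1), ((pc (j * H) ((j + 1) * H) : ℕ) : ℝ) ^ 2 ≤ K + (H:ℝ) ^ 2 := by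
  rw [sum_range_succ']
  have h1 : ((pc (0 * H) ((0 + 1) * H) : ℕ) : ℝ) ≤ H := by
    have := pc_le (0 * H) ((0 + 1) * H)
    have h2 : pc (0 * H) ((0 + 1) * H) ≤ H := by
      simp at this ⊢
      exact this
    exact_mod_cast h2
  have h3 : ((pc (0 * H) ((0 + 1) * H) : ℕ) : ℝ) ^ 2 ≤ (H:ℝ) ^ 2 := by
    apply pow_le_pow_left₀ (by positivity) h1
  have h4 : ∑ k ∈ range M, ((pc ((k + 1) * H) ((k + 1 + 1) * H) : ℕ) : ℝ) ^ 2 =
      ∑ i ∈ range M, ((pc ((i + 1) * H) ((i + 2) * H) : ℕ) : ℝ) ^ 2 := rfl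
  rw [h4]
  linarith

/-- one window, pointwise -/
lemma sqb (r T : ℕ) (a b L : ℝ) (hL : 0 < L) (hT : L ≤ T) (h : (r:ℝ) = a + b) :
    (((r / T + 2) ^ 2 : ℕ) : ℝ) ≤ 4 / L ^ 2 * a ^ 2 + 4 / L ^ 2 * b ^ 2 + 8 := by
  have d1 : ((r / T : ℕ) : ℝ) ≤ (r : ℝ) / T := Nat.cast_div_le
  have d2 : (r : ℝ) / T ≤ (r : ℝ) / L := div_le_div_of_nonneg_left (by positivity) hL hT
  have d4 := le_trans d1 d2
  rw [h] at d4
  push_cast
  have e1 : (((r / T : ℕ) : ℝ) + 2) ^ 2 ≤ ((a + b) / L + 2) ^ 2 :=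
    pow_le_pow_left₀ (by positivity) (by linarith) 2
  refine le_trans e1 ?_
  have e2 : ((a + b) / L + 2) ^ 2 ≤ 2 * ((a + b) / L) ^ 2 + 8 := by
    have := sq_nonneg ((a + b) / L - 2)
    linarith [show ((a + b) / L + 2) ^ 2 + ((a + b) / L - 2) ^ 2 = 2 * ((a + b) / L) ^ 2 + 8 by ring]
  refine le_trans e2 ?_
  have e3 : 4 / L ^ 2 * a ^ 2 + 4 / L ^ 2 * b ^ 2 - 2 * ((a + b) / L) ^ 2 = 2 * ((a - b) / L) ^ 2 := by
    field_simp
    ring
  have e4 := sq_nonneg ((a - b) / L)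
  linarith

/-- the sum over all windows -/
theorem wind (hup : Up) : ∃ C : ℝ, 0 < C ∧ ∃ X0 : ℕ, ∀ X : ℕ, X0 ≤ X → ∀ H T M : ℕ,
    (Real.log X) ^ 2 ≤ H → (H : ℝ) ≤ 2 * (Real.log X) ^ 2 → Real.log X ≤ T → (M + 2) * H ≤ X →
    ((∑ j ∈ range (M + 1), (rr H j / T + 2) ^ 2 : ℕ) : ℝ) ≤ C * (X / (Real.log X) ^ 2) := by
  obtain ⟨C, hC, Z0, hsec⟩ := second hup
  have ev1 : ∀ᶠ x : ℝ in atTop, (Real.log x) ^ 4 ≤ x := by
    have h := Real.isLittleO_pow_log_id_atTop (n := 4)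
    filter_upwards [h.bound (show (0:ℝ) < 1 by norm_num), eventually_ge_atTop 1] with x hx hx1
    rw [Real.norm_of_nonneg (by positivity), id, Real.norm_of_nonneg (by linarith)] at hx
    linarith
  obtain ⟨X1, hX1⟩ := Filter.eventually_atTop.1 ev1
  refine ⟨40 * C + 88, by positivity, max Z0 (max ⌈X1⌉₊ 16), ?_⟩
  intro X hX H T M hH1 hH2 hT hM
  have hXZ : Z0 ≤ X := le_trans (le_max_left _ _) hX
  have hX16 : 16 ≤ X := le_trans (le_trans (le_max_right _ _) (le_max_right _ _)) hX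
  have hXX : X1 ≤ (X:ℝ) :=
    le_trans (Nat.le_ceil _) (by exact_mod_cast le_trans (le_trans (le_max_left _ _) (le_max_right _ _)) hX)
  have hX16r : (16:ℝ) ≤ X := by exact_mod_cast hX16
  have hl4 := hX1 X hXX
  have hlog1 : 1 ≤ Real.log X := by
    rw [Real.le_log_iff_exp_le (by linarith)]
    have := Real.exp_one_lt_d9
    linarith
  have hlog2X : Real.log ((2 * X : ℕ) : ℝ) ≤ 2 * Real.log X := by
    push_cast
    rw [Real.log_mul (by norm_num) (by linarith)]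
    have : Real.log 2 ≤ 1 := by
      have := Real.log_two_lt_d9
      linarith
    linarith
  have hlog2X' : Real.log X ≤ Real.log ((2 * X : ℕ) : ℝ) := by
    apply Real.log_le_log (by linarith)
    push_cast
    linarith
  set L : ℝ := Real.log X with hL
  have hT1 : (1:ℝ) ≤ T := le_trans hlog1 hT
  have hHL : L ≤ H := by nlinarith
  -- first windows
  have hMH : (M + 1) * H ≤ X := le_trans (Nat.mul_le_mul_right _ (by omega)) hM
  have s1 := sum_first H M _ (hsec X hXZ H M hHL hMH)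
  have s2 := sum_first (2 * H) M _ (hsec (2 * X) (by omega) (2 * H) M (by push_cast at hlog2X ⊢; nlinarith)
    (by
      have : (M + 1) * (2 * H) = 2 * ((M + 1) * H) := by ring
      omega))
  have hX0 : (0:ℝ) < X := by linarith
  have b1 : C * (X * H / L ^ 2) ≤ 2 * C * X := by
    have : (X:ℝ) * H / L ^ 2 ≤ 2 * X := by
      rw [div_le_iff₀ (by positivity)]
      nlinarith
    nlinarith
  have b2 : C * (((2 * X : ℕ) : ℝ) * ((2 * H : ℕ) : ℝ) / (Real.log ((2 * X : ℕ) : ℝ)) ^ 2) ≤ 8 * C * X := by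
    have : ((2 * X : ℕ) : ℝ) * ((2 * H : ℕ) : ℝ) / (Real.log ((2 * X : ℕ) : ℝ)) ^ 2 ≤ 8 * X := by
      rw [div_le_iff₀ (by
        have : 0 < Real.log ((2 * X : ℕ) : ℝ) := by linarith
        positivity)]
      have q1 : L ^ 2 ≤ (Real.log ((2 * X : ℕ) : ℝ)) ^ 2 := pow_le_pow_left₀ (by linarith) hlog2X' 2
      push_cast at q1 ⊢
      nlinarith
    nlinarith
  have b3 : (H:ℝ) ^ 2 ≤ 4 * X := by
    have : (H:ℝ) ^ 2 ≤ (2 * L ^ 2) ^ 2 := pow_le_pow_left₀ (by positivity) hH2 2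
    nlinarith
  have b4 : (((2 * H : ℕ) : ℝ)) ^ 2 ≤ 16 * X := by
    push_cast
    nlinarith
  -- pointwise
  have hpt : ∀ j ∈ range (M + 1), (((rr H j / T + 2) ^ 2 : ℕ) : ℝ) ≤
      4 / L ^ 2 * ((pc (j * H) ((j + 1) * H) : ℕ) : ℝ) ^ 2 +
      4 / L ^ 2 * ((pc (j * (2 * H)) ((j + 1) * (2 * H)) : ℕ) : ℝ) ^ 2 + 8 := by
    intro j _
    apply sqb _ _ _ _ L (by linarith) hT
    unfold rr
    push_cast
    rfl
  have hcast : ((∑ j ∈ range (M + 1), (rr H j / T + 2) ^ 2 : ℕ) : ℝ) =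
      ∑ j ∈ range (M + 1), (((rr H j / T + 2) ^ 2 : ℕ) : ℝ) := by
    push_cast
    rfl
  rw [hcast]
  refine le_trans (sum_le_sum hpt) ?_
  rw [sum_add_distrib, sum_add_distrib, ← mul_sum, ← mul_sum, sum_const, card_range, nsmul_eq_mul]
  have hMr : ((M + 1 : ℕ) : ℝ) ≤ X / L ^ 2 := by
    rw [le_div_iff₀ (by positivity)]
    have h1 : ((M + 1 : ℕ) : ℝ) * H ≤ X := by exact_mod_cast hMH
    have h2 : ((M + 1 : ℕ) : ℝ) * L ^ 2 ≤ ((M + 1 : ℕ) : ℝ) * H :=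
      mul_le_mul_of_nonneg_left hH1 (by positivity)
    linarith
  have f1 : 4 / L ^ 2 * ∑ j ∈ range (M + 1), ((pc (j * H) ((j + 1) * H) : ℕ) : ℝ) ^ 2 ≤
      4 / L ^ 2 * (2 * C * X + 4 * X) :=
    mul_le_mul_of_nonneg_left (by linarith) (by positivity)
  have f2 : 4 / L ^ 2 * ∑ j ∈ range (M + 1), ((pc (j * (2 * H)) ((j + 1) * (2 * H)) : ℕ) : ℝ) ^ 2 ≤
      4 / L ^ 2 * (8 * C * X + 16 * X) :=
    mul_le_mul_of_nonneg_left (by linarith) (by positivity)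
  have f3 : 4 / L ^ 2 * (2 * C * X + 4 * X) + 4 / L ^ 2 * (8 * C * X + 16 * X) + X / L ^ 2 * 8 =
      (40 * C + 88) * (X / L ^ 2) := by
    field_simp
    ring
  have f4 : ((M + 1 : ℕ) : ℝ) * 8 ≤ X / L ^ 2 * 8 := by linarith
  linarith

end Pool.Agent.E139C
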